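import Pool.Agent.Helper256.KM.Mertens

/-!
# Integers without prime factors in a set of primes of positive density
-/

set_option autoImplicit false

open Finset

namespace Pool.Agent.Y848.PC

open scoped ArithmeticFunction.vonMangoldt ArithmeticFunction

/-- the function `1 / n` as a homomorphism -/
noncomputable def rcp : ℕ →* ℝ where
  toFun n := (n : ℝ)⁻¹
  map_one' := by simp
  map_mul' a b := by push_cast; rw [mul_inv]

theorem rcp_apply (n : ℕ) : rcp n = (n : ℝ)⁻¹ := rfl

/-- `n` has no prime factor in `T` -/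
def Fre (T : Set ℕ) (n : ℕ) : Prop := ∀ p ∈ T, p.Prime → ¬ p ∣ n

theorem Fre.of_mul {T : Set ℕ} {a b : ℕ} (h : Fre T (a * b)) : Fre T b :=
  fun p hp hpp hd => h p hp hpp (hd.mul_left a)

open Classical in
/-- the sum of the reciprocals -/
theorem sum_recip_le (T : Set ℕ) (X : ℕ) :
    ∑ m ∈ (Icc 1 X).filter (fun m => Fre T m), (m : ℝ)⁻¹ ≤
      Real.exp (1 + ∑ p ∈ (Icc 1 X).filter (fun p => p.Prime ∧ p ∉ T), (1 : ℝ) / p) := by
  set s : Finset ℕ := (Icc 1 X).filter (fun p => p.Prime ∧ p ∉ T) with hs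
  have hlt : ∀ {p : ℕ}, p.Prime → ‖rcp p‖ < 1 := by
    intro p hp
    have h2 : (2 : ℝ) ≤ p := by exact_mod_cast hp.two_le
    rw [rcp_apply, norm_inv, Real.norm_of_nonneg (by positivity)]
    rw [inv_lt_one₀ (by positivity)]
    linarith
  obtain ⟨hsum, hprod⟩ :=
    EulerProduct.summable_and_hasSum_factoredNumbers_prod_filter_prime_geometric hlt s
  have hmem : ∀ m ∈ (Icc 1 X).filter (fun m => Fre T m), m ∈ Nat.factoredNumbers s := by
    intro m hm
    rw [mem_filter, mem_Icc] at hm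
    rw [Nat.mem_factoredNumbers]
    refine ⟨by omega, fun p hp => ?_⟩
    have hpp := Nat.prime_of_mem_primeFactorsList hp
    have hpd := Nat.dvd_of_mem_primeFactorsList hp
    rw [hs, mem_filter, mem_Icc]
    refine ⟨⟨hpp.one_lt.le, (Nat.le_of_dvd (by omega) hpd).trans hm.1.2⟩, hpp, fun hT => ?_⟩
    exact hm.2 p hT hpp hpd
  have h1 : ∑ m ∈ (Icc 1 X).filter (fun m => Fre T m), (m : ℝ)⁻¹ ≤
      ∏ p ∈ s with p.Prime, (1 - rcp p)⁻¹ := by
    rw [← hprod.tsum_eq]
    have h2 := Finset.sum_subtype_of_mem (s := (Icc 1 X).filter (fun m => Fre T m))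
      (p := fun m => m ∈ Nat.factoredNumbers s) (fun m : ℕ => (m : ℝ)⁻¹) hmem
    rw [← h2]
    exact Summable.sum_le_tsum
      (((Icc 1 X).filter (fun m => Fre T m)).subtype (fun m => m ∈ Nat.factoredNumbers s))
      (fun m _ => inv_nonneg.2 (Nat.cast_nonneg _)) hprod.summable
  refine h1.trans ?_
  have h3 : ∏ p ∈ s with p.Prime, (1 - rcp p)⁻¹ ≤
      ∏ p ∈ s with p.Prime, Real.exp ((1 : ℝ) / p + 1 / ((p : ℝ) * (p - 1))) := by
    apply Finset.prod_le_prod
    · intro p hp
      have hpp := (mem_filter.1 hp).2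
      have h2 : (2 : ℝ) ≤ p := by exact_mod_cast hpp.two_le
      rw [rcp_apply, inv_nonneg, sub_nonneg]
      exact inv_le_one_of_one_le₀ (by linarith)
    · intro p hp
      have hpp := (mem_filter.1 hp).2
      have h2 : (2 : ℝ) ≤ p := by exact_mod_cast hpp.two_le
      have hp0 : (0 : ℝ) < p := by linarith
      have hp1 : (0 : ℝ) < (p : ℝ) - 1 := by linarith
      rw [rcp_apply]
      have e1 : (1 - (p : ℝ)⁻¹)⁻¹ = 1 + 1 / ((p : ℝ) - 1) := by
        field_simp
        ring
      have e2 : (1 : ℝ) / p + 1 / ((p : ℝ) * (p - 1)) = 1 / ((p : ℝ) - 1) := by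
        field_simp
        ring
      rw [e1, e2, add_comm]
      exact Real.add_one_le_exp _
  refine h3.trans ?_
  rw [← Real.exp_sum]
  apply Real.exp_le_exp.2
  have hfil : s.filter Nat.Prime = s := by
    apply Finset.filter_true_of_mem
    intro p hp
    rw [hs, mem_filter] at hp
    exact hp.2.1
  rw [hfil, Finset.sum_add_distrib, add_comm]
  apply add_le_add _ le_rfl
  -- the sum of `1 / (p (p - 1))`
  have h4 : ∀ N : ℕ, ∑ n ∈ Icc 2 (N + 1), 1 / ((n : ℝ) * (n - 1)) = 1 - 1 / (N + 1) := by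
    intro N
    induction N with
    | zero => simp
    | succ N ih =>
      rw [Finset.sum_Icc_succ_top (by omega), ih]
      push_cast
      have : (0 : ℝ) < (N : ℝ) + 1 := by positivity
      field_simp
      ring
  have h5 : ∑ p ∈ s, 1 / ((p : ℝ) * (p - 1)) ≤ ∑ n ∈ Icc 2 (X + 1), 1 / ((n : ℝ) * (n - 1)) := by
    apply Finset.sum_le_sum_of_subset_of_nonneg
    · intro p hp
      rw [hs, mem_filter, mem_Icc] at hp
      rw [mem_Icc]
      exact ⟨hp.2.1.two_le, by omega⟩
    · intro n hn _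
      rw [mem_Icc] at hn
      have : (2 : ℝ) ≤ n := by exact_mod_cast hn.1
      have h6 : (0 : ℝ) < (n : ℝ) - 1 := by linarith
      positivity
  rw [h4] at h5
  have h6 : (0 : ℝ) ≤ 1 / ((X : ℝ) + 1) := by positivity
  linarith

open Classical in
/-- the number of free integers, by the method of Hall -/
theorem count_le (T : Set ℕ) (X : ℕ) (hX : 1 ≤ X) :
    Real.log X * (((Icc 1 X).filter (fun n => Fre T n)).card : ℝ) ≤
      (Real.log 4 + 5) * X * ∑ m ∈ (Icc 1 X).filter (fun m => Fre T m), (m : ℝ)⁻¹ := by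
  set f : ℕ → ℝ := fun n => if Fre T n then 1 else 0 with hf
  have hf0 : ∀ n, 0 ≤ f n := fun n => by simp only [hf]; split_ifs <;> norm_num
  have hfm : ∀ a b, f (a * b) ≤ f b := by
    intro a b
    simp only [hf]
    by_cases h : Fre T (a * b)
    · rw [if_pos h, if_pos h.of_mul]
    · rw [if_neg h]
      split_ifs <;> norm_num
  have hcard : (((Icc 1 X).filter (fun n => Fre T n)).card : ℝ) = ∑ n ∈ Icc 1 X, f n := by
    simp only [hf]
    rw [Finset.sum_ite, Finset.sum_const_zero, add_zero, Finset.sum_const, nsmul_eq_mul, mul_one]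
  have hrec : ∑ m ∈ (Icc 1 X).filter (fun m => Fre T m), (m : ℝ)⁻¹ =
      ∑ m ∈ Icc 1 X, f m * (m : ℝ)⁻¹ := by
    rw [Finset.sum_filter]
    apply Finset.sum_congr rfl
    intro m _
    simp only [hf]
    split_ifs <;> simp
  rw [hcard, hrec]
  -- the part with `log n`
  have h1 : ∑ n ∈ Icc 1 X, f n * Real.log n ≤
      (Real.log 4 + 4) * X * ∑ m ∈ Icc 1 X, f m * (m : ℝ)⁻¹ := by
    have e1 : ∀ n ∈ Icc 1 X, f n * Real.log n =
        ∑ x ∈ n.divisorsAntidiagonal, f (x.1 * x.2) * ArithmeticFunction.vonMangoldt x.1 := by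
      intro n _
      rw [← ArithmeticFunction.vonMangoldt_sum, Finset.mul_sum,
        Nat.sum_divisorsAntidiagonal (fun a b => f (a * b) * ArithmeticFunction.vonMangoldt a)]
      apply Finset.sum_congr rfl
      intro d hd
      rw [Nat.mul_div_cancel' (Nat.dvd_of_mem_divisors hd)]
    rw [Finset.sum_congr rfl e1]
    have e2 : ∑ n ∈ Icc 1 X, ∑ x ∈ n.divisorsAntidiagonal,
        f (x.1 * x.2) * ArithmeticFunction.vonMangoldt x.1 ≤
        ∑ m ∈ Icc 1 X, ∑ d ∈ Icc 1 (X / m), f m * ArithmeticFunction.vonMangoldt d := by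
      rw [Finset.sum_sigma', Finset.sum_sigma']
      have hinj : Set.InjOn (fun y : (_ : ℕ) × (ℕ × ℕ) => (⟨y.2.2, y.2.1⟩ : (_ : ℕ) × ℕ))
          ((Icc 1 X).sigma fun n => n.divisorsAntidiagonal : Finset ((_ : ℕ) × (ℕ × ℕ))) := by
        rintro ⟨n, a, b⟩ hy ⟨n', a', b'⟩ hy' hyy
        rw [Finset.mem_coe, Finset.mem_sigma, Nat.mem_divisorsAntidiagonal] at hy hy'
        simp only [Sigma.mk.injEq, heq_eq_eq] at hyy
        obtain ⟨rfl, rfl⟩ := hyy
        have h9 : n = n' := hy.2.1.symm.trans hy'.2.1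
        subst h9
        rfl
      calc ∑ y ∈ (Icc 1 X).sigma fun n => n.divisorsAntidiagonal,
            f (y.2.1 * y.2.2) * ArithmeticFunction.vonMangoldt y.2.1
          ≤ ∑ y ∈ (Icc 1 X).sigma fun n => n.divisorsAntidiagonal,
            (fun z : (_ : ℕ) × ℕ => f z.1 * ArithmeticFunction.vonMangoldt z.2) ⟨y.2.2, y.2.1⟩ := by
            apply Finset.sum_le_sum
            intro y _
            exact mul_le_mul_of_nonneg_right (hfm _ _) ArithmeticFunction.vonMangoldt_nonneg
        _ = ∑ z ∈ ((Icc 1 X).sigma fun n => n.divisorsAntidiagonal).image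
              (fun y : (_ : ℕ) × (ℕ × ℕ) => (⟨y.2.2, y.2.1⟩ : (_ : ℕ) × ℕ)),
              f z.1 * ArithmeticFunction.vonMangoldt z.2 := by
            rw [Finset.sum_image hinj]
        _ ≤ ∑ z ∈ (Icc 1 X).sigma fun m => Icc 1 (X / m),
              f z.1 * ArithmeticFunction.vonMangoldt z.2 := by
            apply Finset.sum_le_sum_of_subset_of_nonneg
            · intro z hz
              rw [Finset.mem_image] at hz
              obtain ⟨⟨n, a, b⟩, hy, rfl⟩ := hz
              rw [Finset.mem_sigma, Nat.mem_divisorsAntidiagonal, mem_Icc] at hy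
              obtain ⟨⟨hn1, hn2⟩, hab, hn0⟩ := hy
              simp only at hab hn1 hn2 hn0 ⊢
              have ha : 0 < a := Nat.pos_of_ne_zero (by rintro rfl; simp at hab; omega)
              have hb : 0 < b := Nat.pos_of_ne_zero (by rintro rfl; simp at hab; omega)
              rw [Finset.mem_sigma, mem_Icc, mem_Icc]
              refine ⟨⟨hb, ?_⟩, ha, ?_⟩
              · change b ≤ X
                calc b ≤ a * b := Nat.le_mul_of_pos_left b ha
                  _ ≤ X := by rw [hab]; exact hn2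
              · change a ≤ X / b
                rw [Nat.le_div_iff_mul_le hb, hab]
                exact hn2
            · intro z _ _
              exact mul_nonneg (hf0 _) ArithmeticFunction.vonMangoldt_nonneg
    refine e2.trans ?_
    rw [Finset.mul_sum]
    apply Finset.sum_le_sum
    intro m hm
    rw [mem_Icc] at hm
    have hm0 : (0 : ℝ) < m := by exact_mod_cast hm.1
    rw [← Finset.mul_sum]
    have e3 : ∑ d ∈ Icc 1 (X / m), ArithmeticFunction.vonMangoldt d ≤
        (Real.log 4 + 4) * ((X : ℝ) / m) := by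
      have e4 : ∑ d ∈ Icc 1 (X / m), ArithmeticFunction.vonMangoldt d =
          Chebyshev.psi ((X : ℝ) / m) := by
        rw [Chebyshev.psi]
        have e5 : ⌊(X : ℝ) / m⌋₊ = X / m := Nat.floor_div_eq_div X m
        rw [e5]
        rfl
      rw [e4]
      exact Chebyshev.psi_le_const_mul_self (by positivity)
    calc f m * ∑ d ∈ Icc 1 (X / m), ArithmeticFunction.vonMangoldt d
        ≤ f m * ((Real.log 4 + 4) * ((X : ℝ) / m)) := mul_le_mul_of_nonneg_left e3 (hf0 m)
      _ = (Real.log 4 + 4) * X * (f m * (m : ℝ)⁻¹) := by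
        rw [div_eq_mul_inv]; ring
  -- the part with `log (X / n)`
  have h2 : ∑ n ∈ Icc 1 X, f n * (Real.log X - Real.log n) ≤
      X * ∑ m ∈ Icc 1 X, f m * (m : ℝ)⁻¹ := by
    rw [Finset.mul_sum]
    apply Finset.sum_le_sum
    intro n hn
    rw [mem_Icc] at hn
    have hn0 : (0 : ℝ) < n := by exact_mod_cast hn.1
    have hX0 : (0 : ℝ) < X := by exact_mod_cast hX
    have e1 : Real.log X - Real.log n ≤ X / n := by
      rw [← Real.log_div hX0.ne' hn0.ne']
      have := Real.log_le_sub_one_of_pos (show 0 < (X : ℝ) / n by positivity)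
      linarith
    calc f n * (Real.log X - Real.log n) ≤ f n * (X / n) := mul_le_mul_of_nonneg_left e1 (hf0 n)
      _ = X * (f n * (n : ℝ)⁻¹) := by rw [div_eq_mul_inv]; ring
  have h3 : Real.log X * ∑ n ∈ Icc 1 X, f n = ∑ n ∈ Icc 1 X, f n * Real.log n +
      ∑ n ∈ Icc 1 X, f n * (Real.log X - Real.log n) := by
    rw [← Finset.sum_add_distrib, Finset.mul_sum]
    apply Finset.sum_congr rfl
    intro n _
    ring
  rw [h3]
  have h4 : (Real.log 4 + 5) * (X : ℝ) * ∑ m ∈ Icc 1 X, f m * (m : ℝ)⁻¹ =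
      (Real.log 4 + 4) * X * ∑ m ∈ Icc 1 X, f m * (m : ℝ)⁻¹ +
        X * ∑ m ∈ Icc 1 X, f m * (m : ℝ)⁻¹ := by ring
  rw [h4]
  exact add_le_add h1 h2

open Classical in
/-- integers without prime factor in a set of primes of density at least `δ` -/
theorem hall (T : Set ℕ) (δ C : ℝ) (h : ∀ X : ℕ, 3 ≤ X → δ * Real.log (Real.log X) - C ≤
    ∑ p ∈ (Icc 1 X).filter (fun p => p.Prime ∧ p ∈ T), (1 : ℝ) / p) :
    ∃ C' : ℝ, 0 < C' ∧ ∀ X : ℕ, 3 ≤ X →
      (((Icc 1 X).filter (fun n => Fre T n)).card : ℝ) ≤ C' * X * (Real.log X) ^ (-δ) := by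
  obtain ⟨C0, hC0⟩ := Pool.Agent.Helper256.KM.mertens_inv
  refine ⟨(Real.log 4 + 5) * Real.exp (1 + C0 + C), ?_, fun X hX => ?_⟩
  · have : 0 ≤ Real.log 4 := Real.log_nonneg (by norm_num)
    positivity
  · have hX3 : (3 : ℝ) ≤ X := by exact_mod_cast hX
    have hlog : 1 < Real.log X := by
      rw [Real.lt_log_iff_exp_lt (by linarith)]
      have := Real.exp_one_lt_d9
      linarith
    have h1 := (abs_le.1 (hC0 X hX)).2
    have h2 := h X hX
    have h3 : ∑ p ∈ (Icc 1 X).filter Nat.Prime, (1 : ℝ) / p =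
        ∑ p ∈ (Icc 1 X).filter (fun p => p.Prime ∧ p ∈ T), (1 : ℝ) / p +
        ∑ p ∈ (Icc 1 X).filter (fun p => p.Prime ∧ p ∉ T), (1 : ℝ) / p := by
      rw [← Finset.sum_filter_add_sum_filter_not ((Icc 1 X).filter Nat.Prime) (fun p => p ∈ T),
        Finset.filter_filter, Finset.filter_filter]
    have h4 := sum_recip_le T X
    have h5 := count_le T X (by omega)
    have h6 : 1 + ∑ p ∈ (Icc 1 X).filter (fun p => p.Prime ∧ p ∉ T), (1 : ℝ) / p ≤
        (1 + C0 + C) + (1 - δ) * Real.log (Real.log X) := by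
      linarith
    have h7 : Real.exp ((1 + C0 + C) + (1 - δ) * Real.log (Real.log X)) =
        Real.exp (1 + C0 + C) * (Real.log X * (Real.log X) ^ (-δ)) := by
      rw [Real.exp_add]
      congr 1
      rw [mul_comm (1 - δ), ← Real.rpow_def_of_pos (by linarith), sub_eq_add_neg,
        Real.rpow_add (by linarith), Real.rpow_one]
    have h8 : ∑ m ∈ (Icc 1 X).filter (fun m => Fre T m), (m : ℝ)⁻¹ ≤
        Real.exp (1 + C0 + C) * (Real.log X * (Real.log X) ^ (-δ)) :=
      h4.trans ((Real.exp_le_exp.2 h6).trans h7.le)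
    have hl4 : 0 ≤ Real.log 4 := Real.log_nonneg (by norm_num)
    have h9 : Real.log X * (((Icc 1 X).filter (fun n => Fre T n)).card : ℝ) ≤
        Real.log X * ((Real.log 4 + 5) * Real.exp (1 + C0 + C) * X * (Real.log X) ^ (-δ)) := by
      refine h5.trans ((mul_le_mul_of_nonneg_left h8 (by positivity)).trans (le_of_eq ?_))
      ring
    exact le_of_mul_le_mul_left h9 (by linarith)

end Pool.Agent.Y848.PC
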