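import Pool.Agent.Y157.PC.Stm3
import Pool.Agent.Y848.PC.Hall

/-!
# Integers without prime factors in a set of primes of positive density
-/

set_option autoImplicit false

open Finset

namespace Pool.Agent.Y848.PC

open Pool.Agent.Y157.PC

theorem sievq : S_SIEVQ := by
  classical
  intro T₀ hT₀ δ C hδ hyp
  obtain ⟨C1, hC1, hall⟩ := hall T₀ δ C (by
    intro X hX
    obtain ⟨T, hT, hs⟩ := hyp X (by omega)
    refine hs.trans ?_
    apply Finset.sum_le_sum_of_subset_of_nonneg
    · intro p hp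
      obtain ⟨h1, h2⟩ := hT p hp
      rw [mem_filter, mem_Icc]
      exact ⟨⟨(hT₀ p h1).one_lt.le, h2⟩, hT₀ p h1, h1⟩
    · intro p _ _
      positivity)
  -- the set is not empty
  have hne : ∃ p, p ∈ T₀ := by
    have hlim : Filter.Tendsto (fun X : ℕ => δ * Real.log (Real.log X)) Filter.atTop
        Filter.atTop :=
      (Real.tendsto_log_atTop.comp (Real.tendsto_log_atTop.comp
        tendsto_natCast_atTop_atTop)).const_mul_atTop hδ
    obtain ⟨X, hX1, hX2⟩ := ((hlim.eventually_gt_atTop C).and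
      (Filter.eventually_ge_atTop 2)).exists
    obtain ⟨T, hT, hs⟩ := hyp X hX2
    have hpos : 0 < ∑ p ∈ T, (1 / p : ℝ) := by linarith
    obtain ⟨p, hp⟩ := Finset.nonempty_of_sum_ne_zero hpos.ne'
    exact ⟨p, (hT p hp).1⟩
  obtain ⟨p0, hp0⟩ := hne
  have hl2 : 0 < Real.log 2 := Real.log_pos (by norm_num)
  set a : ℝ := (Real.log 2) ^ (-δ) with ha
  have ha0 : 0 < a := Real.rpow_pos_of_pos hl2 _
  refine ⟨max (2 * C1) (5 / (2 * a)), fun X hX => ?_⟩
  set A : Set ℤ := {d : ℤ | d.natAbs ≤ X ∧ ∀ p ∈ T₀, ¬ (p : ℤ) ∣ d} with hA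
  rcases Nat.lt_or_ge X 3 with h3 | h3
  · -- `X = 2`
    have hX2 : X = 2 := by omega
    have hsub : A ⊆ ((Finset.Icc (-2 : ℤ) 2 : Finset ℤ) : Set ℤ) := by
      rintro d ⟨hd, -⟩
      rw [Finset.mem_coe, Finset.mem_Icc]
      omega
    have hcard : (A.ncard : ℝ) ≤ 5 := by
      have h1 := Set.ncard_le_ncard hsub (Finset.finite_toSet _)
      rw [Set.ncard_coe_finset] at h1
      have h2 : (Finset.Icc (-2 : ℤ) 2).card = 5 := by decide
      rw [h2] at h1
      exact_mod_cast h1
    refine hcard.trans ?_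
    rw [hX2]
    push_cast
    rw [← ha]
    calc (5 : ℝ) = 5 / (2 * a) * 2 * a := by field_simp
      _ ≤ max (2 * C1) (5 / (2 * a)) * 2 * a := by
        apply mul_le_mul_of_nonneg_right _ ha0.le
        exact mul_le_mul_of_nonneg_right (le_max_right _ _) (by norm_num)
  · -- `X ≥ 3`
    set F : Finset ℕ := (Icc 1 X).filter (fun n => Fre T₀ n) with hF
    have hsub : A ⊆ ((F.image (fun n : ℕ => (n : ℤ)) ∪ F.image (fun n : ℕ => -(n : ℤ)) :
        Finset ℤ) : Set ℤ) := by
      rintro d ⟨hd, hdv⟩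
      have hd0 : d ≠ 0 := by
        rintro rfl
        exact hdv p0 hp0 (dvd_zero _)
      have hmem : d.natAbs ∈ F := by
        rw [hF, mem_filter, mem_Icc]
        refine ⟨⟨Int.natAbs_pos.2 hd0, hd⟩, fun p hp _ hpd => ?_⟩
        exact hdv p hp (Int.natCast_dvd.2 hpd)
      rw [Finset.mem_coe, Finset.mem_union, Finset.mem_image, Finset.mem_image]
      rcases Int.natAbs_eq d with h | h
      · exact Or.inl ⟨d.natAbs, hmem, h.symm⟩
      · exact Or.inr ⟨d.natAbs, hmem, h.symm⟩
    have hcard : (A.ncard : ℝ) ≤ 2 * F.card := by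
      have h1 := Set.ncard_le_ncard hsub (Finset.finite_toSet _)
      rw [Set.ncard_coe_finset] at h1
      have h2 := (Finset.card_union_le (F.image (fun n : ℕ => (n : ℤ)))
        (F.image (fun n : ℕ => -(n : ℤ))))
      have h4 := Finset.card_image_le (s := F) (f := fun n : ℕ => (n : ℤ))
      have h5 := Finset.card_image_le (s := F) (f := fun n : ℕ => -(n : ℤ))
      have h6 : A.ncard ≤ 2 * F.card := by omega
      exact_mod_cast h6
    have hX0 : (0 : ℝ) ≤ X := Nat.cast_nonneg X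
    have hlX : 0 ≤ (Real.log X) ^ (-δ) := Real.rpow_nonneg (Real.log_natCast_nonneg X) _
    calc (A.ncard : ℝ) ≤ 2 * F.card := hcard
      _ ≤ 2 * (C1 * X * (Real.log X) ^ (-δ)) :=
        mul_le_mul_of_nonneg_left (hall X h3) (by norm_num)
      _ = (2 * C1) * X * (Real.log X) ^ (-δ) := by ring
      _ ≤ max (2 * C1) (5 / (2 * a)) * X * (Real.log X) ^ (-δ) := by
        apply mul_le_mul_of_nonneg_right _ hlX
        exact mul_le_mul_of_nonneg_right (le_max_left _ _) hX0

end Pool.Agent.Y848.PC
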